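import Pool.Agent.Helper362.IdealD

/-!
# Accessibility and local reflexivity: each domain, each constant, all Banach ideals

For every Banach operator ideal (maximal or not), every finite-dimensional space `E` and every
constant `C`, accessibility with constant `C` of the operators with domain `E` is equivalent to
local reflexivity with constant `C` for the domain `E`, and also to weak local reflexivity, in which
the approximating operator only has to be close at finitely many points of `E × Y'`.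
-/

set_option autoImplicit false
open Module NormedSpace Filter
open scoped Topology ENNReal

universe u

namespace Pool.Agent.Results.MP_c384ac_an.EachDomainEachConstant

open Pool.Agent.Helper362.Ideals

section Defs

variable {𝕜 : Type} [RCLike 𝕜] (A : IdealData.{u} 𝕜)
variable (E : Type u) [NormedAddCommGroup E] [NormedSpace 𝕜 E] [CompleteSpace E]

/-- Right-accessibility with constant `C` for the domain `E`: every operator `T` from `E` to a
Banach space `Y` factors as `T = J_N S` through a finite-dimensional subspace `N` of `Y` with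
`𝐀(S) ≤ (C + ε) 𝐀(T)`. -/
def AccessibleOn (C : ℝ) : Prop :=
  ∀ (Y : Type u) [NormedAddCommGroup Y] [NormedSpace 𝕜 Y] [CompleteSpace Y] (T : E →L[𝕜] Y)
    (ε : ℝ), 0 < ε → ∃ N : Submodule 𝕜 Y, FiniteDimensional 𝕜 N ∧ ∃ _ : CompleteSpace N,
      FactorsThrough A T ((C + ε) * A.nrm T) N

/-- Local reflexivity with constant `C` for the domain `E`: for `T` from `E` to `Y''`, a
finite-dimensional subspace `F` of `Y'` and `ε > 0` there is `S` from `E` to `Y` with
(i) `𝐀(S) ≤ (C + ε) 𝐀(T)`, (ii) `⟨S x, y'⟩ = ⟨y', T x⟩` on `E × F`, (iii) `j_Y S x = T x` whenever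
`T x ∈ j_Y(Y)`. -/
def LRPOn (C : ℝ) : Prop :=
  ∀ (Y : Type u) [NormedAddCommGroup Y] [NormedSpace 𝕜 Y] [CompleteSpace Y]
    (T : E →L[𝕜] Bidual 𝕜 Y) (F : Submodule 𝕜 (StrongDual 𝕜 Y)), FiniteDimensional 𝕜 F →
    ∀ ε : ℝ, 0 < ε → ∃ S : E →L[𝕜] Y, A.nrm S ≤ (C + ε) * A.nrm T ∧
      (∀ x : E, ∀ y' ∈ F, y' (S x) = value (T x) y') ∧
      (∀ x : E, T x ∈ Set.range (jmap 𝕜 (Y := Y)) → jmap 𝕜 (S x) = T x)

/-- Weak local reflexivity with constant `C` for the domain `E`: for `T` from `E` to `Y''`, finitely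
many pairs `(x, y')` in `E × Y'` and `ε > 0` there is `S` from `E` to `Y` with
`𝐀(S) ≤ (C + ε) 𝐀(T)` and `|⟨S x, y'⟩ - ⟨y', T x⟩| ≤ ε` for these pairs. In other words: `T` is in
the closure, for the pointwise topology on `E × Y'`, of the operators `S` from `E` to `Y` with this
bound. -/
def WeakLRPOn (C : ℝ) : Prop :=
  ∀ (Y : Type u) [NormedAddCommGroup Y] [NormedSpace 𝕜 Y] [CompleteSpace Y]
    (T : E →L[𝕜] Bidual 𝕜 Y) (P : Set (E × StrongDual 𝕜 Y)), P.Finite → ∀ ε : ℝ, 0 < ε →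
    ∃ S : E →L[𝕜] Y, A.nrm S ≤ (C + ε) * A.nrm T ∧
      ∀ q ∈ P, ‖q.2 (S q.1) - value (T q.1) q.2‖ ≤ ε

end Defs

section Proofs

variable {𝕜 : Type} [RCLike 𝕜] (I : BanachIdeal.{u} 𝕜)
variable {E : Type u} [NormedAddCommGroup E] [NormedSpace 𝕜 E] [CompleteSpace E]
  [FiniteDimensional 𝕜 E]

theorem mem_closure {C : ℝ} (hC : 0 ≤ C) (h : WeakLRPOn I.toIdealData E C) {Y : Type u}
    [NormedAddCommGroup Y] [NormedSpace 𝕜 Y] [CompleteSpace Y] (T : E →L[𝕜] Y) (ε : ℝ)
    (hε : 0 < ε) : T ∈ closure (I.KK E Y ((C + ε) * I.nrm T)) := by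
  classical
  by_contra hcon
  obtain ⟨f, c, h1, h2⟩ := hb_sep (𝕜 := 𝕜) (I.KK E Y ((C + ε) * I.nrm T))
    (I.KK_convex _) T hcon
  set g : Fin (finrank 𝕜 E) → StrongDual 𝕜 Y := fun i =>
    f ∘L (ContinuousLinearMap.smulRightL 𝕜 E Y (cf 𝕜 E i)) with hg
  have hfg : ∀ R : E →L[𝕜] Y, f R = ∑ i, g i (R (Module.finBasis 𝕜 E i)) := by
    intro R
    conv_lhs => rw [expand 𝕜 E R]
    rw [map_sum]
    rfl
  -- the accuracy
  obtain ⟨δ, hδ0, hδε, hδ⟩ : ∃ δ : ℝ, 0 < δ ∧ δ ≤ ε ∧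
      (finrank 𝕜 E : ℝ) * δ < RCLike.re (f T) - c := by
    have hpos : 0 < RCLike.re (f T) - c := by linarith
    refine ⟨min ε ((RCLike.re (f T) - c) / (2 * (finrank 𝕜 E + 1))), by positivity,
      min_le_left _ _, ?_⟩
    have h3 : min ε ((RCLike.re (f T) - c) / (2 * (finrank 𝕜 E + 1))) ≤
        (RCLike.re (f T) - c) / (2 * (finrank 𝕜 E + 1)) := min_le_right _ _
    have h4 : (finrank 𝕜 E : ℝ) * ((RCLike.re (f T) - c) / (2 * (finrank 𝕜 E + 1))) <
        RCLike.re (f T) - c := by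
      rw [← mul_div_assoc, div_lt_iff₀ (by positivity)]
      have h5 : (0 : ℝ) ≤ finrank 𝕜 E := Nat.cast_nonneg _
      nlinarith
    have h5 : (0 : ℝ) ≤ finrank 𝕜 E := Nat.cast_nonneg _
    exact lt_of_le_of_lt (mul_le_mul_of_nonneg_left h3 h5) h4
  obtain ⟨S, hS1, hS2⟩ := h (NS 𝕜 Y) (lamB 𝕜 Y ∘L T)
    (Set.range fun i : Fin (finrank 𝕜 E) => (Module.finBasis 𝕜 E i, g i ∘L limQ 𝕜 Y))
    (Set.finite_range _) δ hδ0
  have hTn : 0 ≤ I.nrm T := I.nrm_nonneg T (I.mem_fd T)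
  have hS1' : I.nrm S ≤ (C + ε) * I.nrm T := by
    refine hS1.trans ?_
    have e1 : I.nrm (lamB 𝕜 Y ∘L T) ≤ I.nrm T :=
      I.nrm_comp_left_le T (I.mem_fd T) (lamB 𝕜 Y) (norm_lamB_le 𝕜 Y)
    have e2 : 0 ≤ I.nrm (lamB 𝕜 Y ∘L T) := I.nrm_nonneg _ (I.mem_fd _)
    calc (C + δ) * I.nrm (lamB 𝕜 Y ∘L T) ≤ (C + ε) * I.nrm (lamB 𝕜 Y ∘L T) :=
          mul_le_mul_of_nonneg_right (by linarith) e2
      _ ≤ (C + ε) * I.nrm T := mul_le_mul_of_nonneg_left e1 (by linarith)
  have hS3 : ∀ i, ‖g i (limQ 𝕜 Y (S (Module.finBasis 𝕜 E i))) -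
      g i (T (Module.finBasis 𝕜 E i))‖ ≤ δ := by
    intro i
    have e1 := hS2 _ ⟨i, rfl⟩
    have e2 := lam_comp 𝕜 Y (T (Module.finBasis 𝕜 E i)) (g i)
    have e3 : value ((lamB 𝕜 Y ∘L T) (Module.finBasis 𝕜 E i)) (g i ∘L limQ 𝕜 Y) =
      g i (T (Module.finBasis 𝕜 E i)) := e2
    simp only [] at e1
    rw [e3] at e1
    exact e1
  have hlim : Tendsto (fun s : Finset Y => f ((Submodule.span 𝕜 (s : Set Y)).subtypeL ∘L
      (ev 𝕜 Y s ∘L S))) atTop (𝓝 (∑ i, g i (limQ 𝕜 Y (S (Module.finBasis 𝕜 E i))))) := by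
    have e2 : (fun s : Finset Y => f ((Submodule.span 𝕜 (s : Set Y)).subtypeL ∘L
      (ev 𝕜 Y s ∘L S))) = fun s : Finset Y => ∑ i, g i
        ((ev 𝕜 Y s (S (Module.finBasis 𝕜 E i)) : Submodule.span 𝕜 (s : Set Y)) : Y) := by
      funext s
      rw [hfg]
      rfl
    rw [e2]
    refine tendsto_finsetSum _ (fun i _ => ?_)
    exact ((g i).continuous.tendsto _).comp (tendsto_ev 𝕜 Y (S (Module.finBasis 𝕜 E i)))
  have hle : RCLike.re (∑ i, g i (limQ 𝕜 Y (S (Module.finBasis 𝕜 E i)))) ≤ c := by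
    refine le_of_tendsto ((RCLike.continuous_re.tendsto _).comp hlim)
      (Eventually.of_forall (fun s => ?_))
    refine (h1 _ ?_).le
    have hc : CompleteSpace (Submodule.span 𝕜 (s : Set Y)) := FiniteDimensional.complete 𝕜 _
    refine ⟨Submodule.span 𝕜 (s : Set Y), inferInstance, hc, ev 𝕜 Y s ∘L S, rfl, ?_⟩
    exact (I.nrm_comp_left_le S (I.mem_fd S) _ (norm_ev_le 𝕜 Y s)).trans hS1'
  have hdiff : RCLike.re (f T) -
      RCLike.re (∑ i, g i (limQ 𝕜 Y (S (Module.finBasis 𝕜 E i)))) ≤ (finrank 𝕜 E : ℝ) * δ := by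
    rw [hfg T, ← map_sub, ← Finset.sum_sub_distrib]
    refine (RCLike.re_le_norm _).trans ((norm_sum_le _ _).trans ?_)
    refine (Finset.sum_le_sum (g := fun _ => δ) fun i _ => ?_).trans ?_
    · rw [norm_sub_rev]; exact hS3 i
    · rw [Finset.sum_const, Finset.card_univ, Fintype.card_fin, nsmul_eq_mul]
  linarith

theorem accessible_of_weak {C : ℝ} (hC : 0 ≤ C) (h : WeakLRPOn I.toIdealData E C) :
    AccessibleOn I.toIdealData E C := by
  intro Y _ _ _ T ε hε
  by_cases hT : T = 0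
  · have hc : CompleteSpace (⊥ : Submodule 𝕜 Y) := FiniteDimensional.complete 𝕜 _
    refine ⟨⊥, inferInstance, hc, Exists.intro (0 : E →L[𝕜] (⊥ : Submodule 𝕜 Y)) ⟨?_, ?_⟩⟩
    · rw [hT, ContinuousLinearMap.comp_zero]
    · show I.nrm _ ≤ (C + ε) * I.nrm T
      rw [hT, I.nrm_zero, I.nrm_zero, mul_zero]
  · have hpos : 0 < I.nrm T := lt_of_lt_of_le (norm_pos_iff.mpr hT) (I.norm_le_nrm T (I.mem_fd T))
    obtain ⟨D0, hD0, hDb⟩ := I.nrm_le_mul (𝕜 := 𝕜) E
    have hcl := mem_closure I hC h T (ε / 2) (by linarith)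
    have hδ : 0 < (ε / 2) * I.nrm T / (D0 + 1) := by positivity
    obtain ⟨R, ⟨N, hN, hNc, S, hRS, hS⟩, hd⟩ := Metric.mem_closure_iff.mp hcl _ hδ
    set N' : Submodule 𝕜 Y := N ⊔ LinearMap.range (T : E →ₗ[𝕜] Y) with hN'
    have hfd : FiniteDimensional 𝕜 N' := inferInstance
    have hc : CompleteSpace N' := FiniteDimensional.complete 𝕜 _
    have hTN : ∀ x, T x ∈ N' := fun x => (le_sup_right : _ ≤ N') (LinearMap.mem_range_self _ x)
    have hRN : ∀ x, R x ∈ N' := fun x => by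
      rw [hRS]
      exact (le_sup_left : _ ≤ N') (S x).2
    refine ⟨N', hfd, hc, Exists.intro (T.codRestrict N' hTN) ⟨?_, ?_⟩⟩
    · ext x
      rfl
    · set D : E →L[𝕜] N' := (T - R).codRestrict N' (fun x => Submodule.sub_mem _ (hTN x) (hRN x))
        with hD
      have hTD : T.codRestrict N' hTN =
          (Pool.Agent.Helper362.Ideals.BanachIdeal.incl N N' le_sup_left) ∘L S + D := by
        ext x
        show T x = (S x : Y) + (T x - R x)
        rw [hRS]
        show T x = (S x : Y) + (T x - (S x : Y))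
        abel
      have hDn : ‖D‖ ≤ ‖T - R‖ := by
        refine ContinuousLinearMap.opNorm_le_bound _ (norm_nonneg _) (fun x => ?_)
        exact (T - R).le_opNorm x
      have hTR : ‖T - R‖ < (ε / 2) * I.nrm T / (D0 + 1) := by rw [← dist_eq_norm]; exact hd
      have e1 : I.nrm D ≤ (ε / 2) * I.nrm T := by
        refine (hDb _ D).trans ?_
        have h3 : D0 * ‖D‖ ≤ (D0 + 1) * ((ε / 2) * I.nrm T / (D0 + 1)) := by
          refine mul_le_mul (by linarith) (hDn.trans hTR.le) (norm_nonneg _) (by linarith)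
        rwa [mul_div_cancel₀ _ (by positivity : (D0 + 1) ≠ 0)] at h3
      rw [hTD]
      show I.nrm _ ≤ (C + ε) * I.nrm T
      refine (I.nrm_add_le _ _ (I.mem_fd _) (I.mem_fd _)).trans ?_
      have e2 := I.nrm_comp_left_le S (I.mem_fd S)
        (Pool.Agent.Helper362.Ideals.BanachIdeal.incl N N' le_sup_left)
        (Pool.Agent.Helper362.Ideals.BanachIdeal.norm_incl_le _ _ _)
      calc _ ≤ (C + ε / 2) * I.nrm T + (ε / 2) * I.nrm T := add_le_add (e2.trans hS) e1
        _ = (C + ε) * I.nrm T := by ring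

theorem lrp_of_accessible {C : ℝ} (hC : 0 ≤ C) (h : AccessibleOn I.toIdealData E C) :
    LRPOn I.toIdealData E C := by
  intro Y _ _ _ T F hF ε hε
  obtain ⟨ε', h1, h2, h3⟩ : ∃ ε' : ℝ, 0 < ε' ∧ ε' ≤ 1 ∧ (C + 2) * ε' ≤ ε :=
    ⟨min 1 (ε / (C + 2)), by positivity, min_le_left _ _, by
      have h4 := min_le_right 1 (ε / (C + 2))
      calc (C + 2) * min 1 (ε / (C + 2)) ≤ (C + 2) * (ε / (C + 2)) :=
            mul_le_mul_of_nonneg_left h4 (by linarith)
        _ = ε := mul_div_cancel₀ _ (by positivity)⟩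
  obtain ⟨N, hN, hNc, S, hTS, hS⟩ := h (Bidual 𝕜 Y) T ε' h1
  obtain ⟨R, hR1, hR2, hR3⟩ := plrB (Y := Y) N hN F hF ε' h1
  have hTx : ∀ x, T x = (S x : Bidual 𝕜 Y) := fun x => by
    conv_lhs => rw [hTS]
    rfl
  refine ⟨R ∘L S, ?_, ?_, ?_⟩
  · refine (I.nrm_comp_left S (I.mem_fd S) R).trans ?_
    have h4 := I.nrm_nonneg S (I.mem_fd S)
    have h5 := I.nrm_nonneg T (I.mem_fd T)
    calc ‖R‖ * I.nrm S ≤ (1 + ε') * ((C + ε') * I.nrm T) :=
          mul_le_mul hR1 hS h4 (by linarith)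
      _ = ((1 + ε') * (C + ε')) * I.nrm T := by ring
      _ ≤ _ := mul_le_mul_of_nonneg_right (by nlinarith) h5
  · intro x y' hy'
    rw [hTx]
    exact hR2 (S x) y' hy'
  · rintro x ⟨y, hy⟩
    rw [hTx] at hy ⊢
    rw [← hy]
    congr 1
    exact hR3 (S x) y hy.symm

theorem weak_of_lrp {C : ℝ} (h : LRPOn I.toIdealData E C) : WeakLRPOn I.toIdealData E C := by
  intro Y _ _ _ T P hP ε hε
  have hFfd : FiniteDimensional 𝕜 (Submodule.span 𝕜 (Prod.snd '' P)) :=
    FiniteDimensional.span_of_finite 𝕜 (hP.image _)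
  obtain ⟨S, hS1, hS2, _⟩ := h Y T (Submodule.span 𝕜 (Prod.snd '' P)) hFfd ε hε
  refine ⟨S, hS1, fun q hq => ?_⟩
  rw [hS2 q.1 q.2 (Submodule.subset_span ⟨q, hq, rfl⟩), sub_self, norm_zero]
  exact hε.le

end Proofs

/-- **Accessibility and local reflexivity, domain by domain and constant by constant.** Let
`(𝔄, 𝐀)` be any Banach ideal over the real or complex numbers (maximality is not assumed).
1. For every finite-dimensional normed space `E` and every `C ≥ 0`, the following are equivalent: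
   accessibility with constant `C` for the domain `E`, local reflexivity with constant `C` for the
   domain `E`, weak local reflexivity with constant `C` for the domain `E`.
2. (Q1) `(𝔄, 𝐀)` is right-accessible if and only if it satisfies the principle of `𝔄`-local
   reflexivity.
3. This holds if and only if for every finite-dimensional `E` weak local reflexivity holds with
   constant `1`. -/
theorem result (𝕜 : Type) [RCLike 𝕜] (I : BanachIdeal.{u} 𝕜) :
    (∀ (E : Type u) [NormedAddCommGroup E] [NormedSpace 𝕜 E] [CompleteSpace E]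
      [FiniteDimensional 𝕜 E] (C : ℝ), 0 ≤ C →
      (AccessibleOn I.toIdealData E C ↔ LRPOn I.toIdealData E C) ∧
      (LRPOn I.toIdealData E C ↔ WeakLRPOn I.toIdealData E C)) ∧
    (RightAccessible I.toIdealData ↔ LRP I.toIdealData) ∧
    (RightAccessible I.toIdealData ↔
      ∀ (E : Type u) [NormedAddCommGroup E] [NormedSpace 𝕜 E] [CompleteSpace E],
        FiniteDimensional 𝕜 E → WeakLRPOn I.toIdealData E 1) := by
  refine ⟨fun E _ _ _ _ C hC => ⟨⟨fun h => lrp_of_accessible I hC h, fun h =>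
    accessible_of_weak I hC (weak_of_lrp I h)⟩, ⟨fun h => weak_of_lrp I h, fun h =>
    lrp_of_accessible I hC (accessible_of_weak I hC h)⟩⟩, I.rightAccessible_iff_LRP, ?_⟩
  constructor
  · intro h E _ _ _ hE
    refine weak_of_lrp I (lrp_of_accessible I zero_le_one ?_)
    intro Y _ _ _ T ε hε
    exact h E Y hE T ε hε
  · intro h E Y _ _ _ _ _ _ hE T ε hε
    exact accessible_of_weak I zero_le_one (h E hE) Y T ε hε

end Pool.Agent.Results.MP_c384ac_an.EachDomainEachConstant
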